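import Mathlib
import Pool.Agent.H47.FCclose
import Pool.Graph.R_seed8.Helper844.DPRM
set_option autoImplicit false

/-! No algorithm decides whether a finite list of group words is functionally complete on every
group. -/

namespace Pool.Agent.Results.MP_57bda5_lc.Undecidable

open Pool.Agent.Helper844

universe u

/-- A word: a finite string over the alphabet `x_0, x_0⁻¹, x_1, x_1⁻¹, …`; the letter `(i, true)`
is the variable `x_i`, the letter `(i, false)` is its formal inverse. -/
abbrev GWord := List (ℕ × Bool)

/-- the value of a word in a group `G` under an assignment `v` of the variables -/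
def value {G : Type u} [Group G] (v : ℕ → G) (w : GWord) : G :=
  (w.map (fun a => if a.2 then v a.1 else (v a.1)⁻¹)).prod

/-- the formal inverse of a word -/
def inverse (w : GWord) : GWord := (w.map (fun a => (a.1, !a.2))).reverse

/-- the substitution of the words `σ i` for the variables `x_i` in the word `w` -/
def substitute (σ : ℕ → GWord) (w : GWord) : GWord :=
  w.flatMap (fun a => if a.2 then σ a.1 else inverse (σ a.1))

/-- the words expressible in the words of the list `B` on the group `G` -/
inductive Expressible (G : Type u) [Group G] (B : List GWord) : GWord → Prop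
  | base {w : GWord} (h : w ∈ B) : Expressible G B w
  | var (i : ℕ) : Expressible G B [(i, true)]
  | subst {w : GWord} (σ : ℕ → GWord) (hw : Expressible G B w) (hσ : ∀ i, Expressible G B (σ i)) :
      Expressible G B (substitute σ w)
  | congr {w w' : GWord} (hw : Expressible G B w) (h : ∀ v : ℕ → G, value v w = value v w') :
      Expressible G B w'

/-- the list `B` is functionally complete on the group `G` -/
def CompleteOn (G : Type u) [Group G] (B : List GWord) : Prop :=
  ∀ w : GWord, Expressible G B w

theorem toP {G : Type u} [Group G] {B : List GWord} {w : GWord} (h : Expressible G B w) :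
    FC.Produced G B w := by
  induction h with
  | base h => exact FC.Produced.base h
  | var i => exact FC.Produced.var i
  | subst σ _ _ ih ih' => exact FC.Produced.subst σ ih ih'
  | congr _ h ih => exact FC.Produced.congr ih h

theorem ofP {G : Type u} [Group G] {B : List GWord} {w : GWord} (h : FC.Produced G B w) :
    Expressible G B w := by
  induction h with
  | base h => exact Expressible.base h
  | var i => exact Expressible.var i
  | subst σ _ _ ih ih' => exact Expressible.subst σ ih ih'
  | congr _ h ih => exact Expressible.congr ih h

theorem iffP {G : Type u} [Group G] {B : List GWord} :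
    CompleteOn G B ↔ FC.FunctionallyComplete G B :=
  ⟨fun h w => toP (h w), fun h w => ofP (h w)⟩

theorem exists_re : ∃ p : ℕ → Prop, REPred p ∧ ¬ ComputablePred p := by
  refine ⟨fun n => (Nat.Partrec.Code.eval (Denumerable.ofNat Nat.Partrec.Code n) 0).Dom, ?_, ?_⟩
  · have h := ComputablePred.halting_problem_re 0
    unfold REPred at h ⊢
    exact h.comp (Computable.ofNat Nat.Partrec.Code)
  · intro h
    apply ComputablePred.halting_problem 0
    have h2 := ComputablePred.computable_iff.1 h
    obtain ⟨f, hf, hfe⟩ := h2
    apply ComputablePred.computable_iff.2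
    refine ⟨fun c => f (Encodable.encode c), hf.comp Computable.encode, ?_⟩
    funext c
    have := congrFun hfe (Encodable.encode c)
    simpa using this

/-- **There is no algorithm which, given a finite list of group words, decides whether it is
functionally complete on every group.** -/
theorem result :
    ¬ ComputablePred (fun B : List GWord => ∀ (G : Type u) [Group G], CompleteOn G B) := by
  intro hc
  obtain ⟨p, hp, hnp⟩ := exists_re
  obtain ⟨V, _, f, L, hL⟩ := Sys.exists_system p (Dio.dprm hp)
  apply hnp
  classical
  let e : V ≃ Fin (Fintype.card V) := Fintype.equivFin V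
  let L' : List (Sys.Eqn (Fin (Fintype.card V))) := L.map (Sys.Eqn.map e)
  have hsol : ∀ n : ℕ, p n ↔ ∃ z : Fin (Fintype.card V) → ℤ,
      (∀ Q ∈ L', Q.Holds z) ∧ z (e f) = 1 - 4 * n := by
    intro n
    have h1 := hL (1 - 4 * n)
    constructor
    · intro hn
      obtain ⟨x, hx, hQ⟩ := h1.2 ⟨n, hn, rfl⟩
      refine ⟨x ∘ e.symm, ?_, by simpa using hx⟩
      intro Q hQ'
      obtain ⟨q, hq, rfl⟩ := List.mem_map.1 hQ'
      rw [Sys.Eqn.holds_map]
      have : (x ∘ e.symm) ∘ e = x := by
        funext v; simp
      rw [this]
      exact hQ q hq
    · rintro ⟨z, hz, hzf⟩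
      obtain ⟨m, hm, hmn⟩ := h1.1 ⟨z ∘ e, hzf, fun q hq => by
        have := hz _ (List.mem_map_of_mem hq)
        rwa [Sys.Eqn.holds_map] at this⟩
      have : n = m := by omega
      rw [this]; exact hm
  have hred : ∀ n : ℕ, p n ↔
      ∀ (G : Type u) [Group G], CompleteOn G (FC.theList (FC.extL L') (e f) n) := by
    intro n
    rw [hsol n]
    constructor
    · rintro ⟨z, hz, hzf⟩ G _
      rw [iffP]
      exact FC.complete_of_sol z (FC.extL_holds hz) hzf
    · intro h
      by_contra hno
      apply H47.FC.not_complete L' (e f) n hno
      have h1 := h (ULift.{u} (FC.W ⧸ H47.FC.NN0 (Fintype.card V + 4) (FC.TrS (FC.extL L'))))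
      rw [iffP] at h1
      exact FC.complete_equiv MulEquiv.ulift h1
  apply ComputablePred.computable_iff.2
  obtain ⟨g, hg, hge⟩ := ComputablePred.computable_iff.1 hc
  refine ⟨fun n => g (FC.theList (FC.extL L') (e f) n), hg.comp (FC.theList_computable _ _), ?_⟩
  funext n
  have h1 := congrFun hge (FC.theList (FC.extL L') (e f) n)
  rw [← h1]
  exact propext (hred n)

end Pool.Agent.Results.MP_57bda5_lc.Undecidable
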